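import Pool.Agent.H629.CG.Stm

/-!
# MP_e22585_pr, project CG: ratios of the profile `r`
-/

set_option autoImplicit false

namespace Pool.Agent.H59.CG.R1

open Pool.Agent.H629.CG Filter Topology Set

theorem t_R1 : S_R1 := by
  intro r hr
  obtain ⟨L, hL⟩ : ∃ L : ℝ → ℝ, L = fun x => Real.log (r x) := ⟨_, rfl⟩
  have hLs : ContDiffOn ℝ 1 L (Ioo 0 1) := by
    rw [hL]
    exact hr.smooth.log fun x hx => (hr.pos x hx).ne'
  have hLd : ∀ t ∈ Ioo (0 : ℝ) 1, HasDerivAt L (deriv L t) t := by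
    intro t ht
    have h1 : DifferentiableAt ℝ L t :=
      (hLs.differentiableOn one_ne_zero t ht).differentiableAt (isOpen_Ioo.mem_nhds ht)
    exact h1.hasDerivAt
  have hLc : ContinuousOn (deriv L) (Ioo 0 1) :=
    hLs.continuousOn_deriv_of_isOpen isOpen_Ioo le_rfl
  have hlog : Tendsto (fun t => t * deriv L t) (𝓝[>] 0) (𝓝 1) := by
    rw [hL]; exact hr.logder
  -- near zero
  have hnear : ∀ δ : ℝ, 0 < δ → ∃ t₀ : ℝ, 0 < t₀ ∧ t₀ ≤ 1 / 2 ∧
      ∀ t, 0 < t → t < t₀ → |t * deriv L t - 1| ≤ δ := by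
    intro δ hδ
    have h1 : ∀ᶠ t in 𝓝[>] (0 : ℝ), |t * deriv L t - 1| < δ := by
      have h2 := hlog.eventually (Metric.ball_mem_nhds (1 : ℝ) hδ)
      filter_upwards [h2] with t ht
      rw [Real.dist_eq] at ht
      exact ht
    obtain ⟨u, hu, hu'⟩ := (mem_nhdsGT_iff_exists_Ioo_subset).1 h1
    refine ⟨min u (1 / 2), lt_min hu (by norm_num), min_le_right _ _, ?_⟩
    intro t ht0 ht1
    have h3 : t ∈ Ioo (0 : ℝ) u := ⟨ht0, lt_of_lt_of_le ht1 (min_le_left _ _)⟩
    exact le_of_lt (hu' h3)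
  -- the bound for the logarithmic derivative
  obtain ⟨C₂, hC₂0, hC₂⟩ : ∃ C, 0 ≤ C ∧ ∀ t, 0 < t → t ≤ 1 / 2 → |t * deriv L t| ≤ C := by
    obtain ⟨t₀, ht₀, ht₀', hb⟩ := hnear 1 one_pos
    have hcomp : IsCompact (Icc t₀ (1 / 2 : ℝ)) := isCompact_Icc
    have hcont : ContinuousOn (fun t => t * deriv L t) (Icc t₀ (1 / 2 : ℝ)) := by
      refine continuousOn_id.mul (hLc.mono ?_)
      intro t ht
      exact ⟨lt_of_lt_of_le ht₀ ht.1, lt_of_le_of_lt ht.2 (by norm_num)⟩
    obtain ⟨C, hC⟩ := hcomp.exists_bound_of_continuousOn hcont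
    refine ⟨max C 2, le_trans (by norm_num) (le_max_right _ _), ?_⟩
    intro t ht0 ht1
    rcases lt_or_ge t t₀ with h | h
    · have h1 := hb t ht0 h
      have h2 : |t * deriv L t| ≤ |t * deriv L t - 1| + 1 := by
        have := abs_add_le (t * deriv L t - 1) 1
        rw [sub_add_cancel, abs_one] at this
        exact this
      exact le_trans (by linarith) (le_max_right _ _)
    · have h1 := hC t ⟨h, ht1⟩
      rw [Real.norm_eq_abs] at h1
      exact h1.trans (le_max_left _ _)
  refine ⟨?_, C₂, hC₂0, ?_⟩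
  · intro δ hδ
    obtain ⟨t₀, ht₀, ht₀', hb⟩ := hnear δ hδ
    obtain ⟨K, hK⟩ : ∃ K, K = (C₂ + 1 + δ) / t₀ := ⟨_, rfl⟩
    have hK0 : 0 ≤ K := by rw [hK]; positivity
    refine ⟨K, hK0, ?_⟩
    intro d' d hd' hdd hd
    have hd0 : 0 < d := lt_of_lt_of_le hd' hdd
    have hint : interior (Ioc (0 : ℝ) (1 / 2)) = Ioo 0 (1 / 2) := interior_Ioc
    have hsub : ∀ t ∈ Ioc (0 : ℝ) (1 / 2), t ∈ Ioo (0 : ℝ) 1 := fun t ht =>
      ⟨ht.1, lt_of_le_of_lt ht.2 (by norm_num)⟩
    have hmemd : d ∈ Ioc (0 : ℝ) (1 / 2) := ⟨hd0, hd⟩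
    have hmemd' : d' ∈ Ioc (0 : ℝ) (1 / 2) := ⟨hd', hdd.trans hd⟩
    -- the derivative bounds
    have hbd : ∀ t ∈ Ioo (0 : ℝ) (1 / 2), deriv L t - (1 + δ) * t⁻¹ - K ≤ 0 ∧
        0 ≤ deriv L t - (1 - δ) * t⁻¹ + K := by
      intro t ht
      have ht0 : 0 < t := ht.1
      have ht1 : t ≤ 1 / 2 := ht.2.le
      have e1 : deriv L t - (1 + δ) * t⁻¹ = (t * deriv L t - 1 - δ) / t := by
        field_simp
        ring
      have e2 : deriv L t - (1 - δ) * t⁻¹ = (t * deriv L t - 1 + δ) / t := by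
        field_simp
        ring
      rw [e1, e2]
      rcases lt_or_ge t t₀ with h | h
      · have h1 := abs_le.1 (hb t ht0 h)
        have h2 : (t * deriv L t - 1 - δ) / t ≤ 0 :=
          div_nonpos_of_nonpos_of_nonneg (by linarith [h1.2]) ht0.le
        have h3 : 0 ≤ (t * deriv L t - 1 + δ) / t :=
          div_nonneg (by linarith [h1.1]) ht0.le
        exact ⟨by linarith, by linarith⟩
      · have h1 := abs_le.1 (hC₂ t ht0 ht1)
        have hq : (C₂ + 1 + δ) / t ≤ K := by
          rw [hK]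
          exact div_le_div_of_nonneg_left (by positivity) ht₀ h
        have h2 : (t * deriv L t - 1 - δ) / t ≤ (C₂ + 1 + δ) / t := by
          apply div_le_div_of_nonneg_right _ ht0.le
          linarith [h1.2]
        have h3 : -((C₂ + 1 + δ) / t) ≤ (t * deriv L t - 1 + δ) / t := by
          rw [← neg_div]
          apply div_le_div_of_nonneg_right _ ht0.le
          linarith [h1.1]
        exact ⟨by linarith, by linarith⟩
    have hA : ∀ t ∈ Ioo (0 : ℝ) 1, HasDerivAt (fun t => L t - (1 + δ) * Real.log t - K * t)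
        (deriv L t - (1 + δ) * t⁻¹ - K) t := by
      intro t ht
      have h1 := ((hLd t ht).sub ((Real.hasDerivAt_log ht.1.ne').const_mul (1 + δ))).sub
        ((hasDerivAt_id t).const_mul K)
      rw [mul_one] at h1
      exact h1
    have hB : ∀ t ∈ Ioo (0 : ℝ) 1, HasDerivAt (fun t => L t - (1 - δ) * Real.log t + K * t)
        (deriv L t - (1 - δ) * t⁻¹ + K) t := by
      intro t ht
      have h1 := ((hLd t ht).sub ((Real.hasDerivAt_log ht.1.ne').const_mul (1 - δ))).add
        ((hasDerivAt_id t).const_mul K)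
      rw [mul_one] at h1
      exact h1
    have hanti : AntitoneOn (fun t => L t - (1 + δ) * Real.log t - K * t)
        (Ioc (0 : ℝ) (1 / 2)) := by
      refine antitoneOn_of_deriv_nonpos (convex_Ioc _ _) ?_ ?_ ?_
      · intro t ht
        exact (hA t (hsub t ht)).continuousAt.continuousWithinAt
      · intro t ht
        rw [hint] at ht
        exact (hA t ⟨ht.1, ht.2.trans (by norm_num)⟩).differentiableAt.differentiableWithinAt
      · intro t ht
        rw [hint] at ht
        rw [(hA t ⟨ht.1, ht.2.trans (by norm_num)⟩).deriv]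
        exact (hbd t ht).1
    have hmono : MonotoneOn (fun t => L t - (1 - δ) * Real.log t + K * t)
        (Ioc (0 : ℝ) (1 / 2)) := by
      refine monotoneOn_of_deriv_nonneg (convex_Ioc _ _) ?_ ?_ ?_
      · intro t ht
        exact (hB t (hsub t ht)).continuousAt.continuousWithinAt
      · intro t ht
        rw [hint] at ht
        exact (hB t ⟨ht.1, ht.2.trans (by norm_num)⟩).differentiableAt.differentiableWithinAt
      · intro t ht
        rw [hint] at ht
        rw [(hB t ⟨ht.1, ht.2.trans (by norm_num)⟩).deriv]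
        exact (hbd t ht).2
    have g1 := hanti hmemd' hmemd hdd
    have g2 := hmono hmemd' hmemd hdd
    simp only at g1 g2
    have hlogd : Real.log (d / d') = Real.log d - Real.log d' :=
      Real.log_div hd0.ne' hd'.ne'
    have hKd : K * (d - d') ≤ K := by
      have : d - d' ≤ 1 := by linarith
      calc K * (d - d') ≤ K * 1 := mul_le_mul_of_nonneg_left this hK0
        _ = K := mul_one K
    have hLe : ∀ t, Real.log (r t) = L t := fun t => by rw [hL]
    rw [hLe, hLe, hlogd]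
    constructor
    · linarith
    · linarith
  · intro t ht0 ht1
    have h1 := hC₂ t ht0 ht1
    rw [hL] at h1
    exact h1

end Pool.Agent.H59.CG.R1
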